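import Mathlib

namespace Pool.Agent.Results.MP_2a9133_gt.Compact

/-- The semi-span of a metric space, with values in `[0, ∞]`: the supremum, over all connected
sets `C ⊆ X × X` one of whose two projections to `X` is contained in the other, of the infimum
of `d (x, y)` over `(x, y) ∈ C`. -/
noncomputable def semispan (X : Type) [MetricSpace X] : ENNReal :=
  ⨆ (C : Set (X × X)) (_ : IsConnected C)
    (_ : Prod.fst '' C ⊆ Prod.snd '' C ∨ Prod.snd '' C ⊆ Prod.fst '' C),
    ⨅ p ∈ C, edist p.1 p.2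

/-- The surjective semi-span of a metric space, with values in `[0, ∞]`: the supremum, over all
connected sets `C ⊆ X × X` at least one of whose projections is all of `X`, of the infimum of
`d (x, y)` over `(x, y) ∈ C`. -/
noncomputable def surjectiveSemispan (X : Type) [MetricSpace X] : ENNReal :=
  ⨆ (C : Set (X × X)) (_ : IsConnected C)
    (_ : Prod.fst '' C = Set.univ ∨ Prod.snd '' C = Set.univ), ⨅ p ∈ C, edist p.1 p.2


/-- Table of the prescribed distances between the twelve vertices. -/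
def tabD : List (List ℤ) :=
  [[0, 20, 20, 9, 20, 20, 20, 20, 11, 11, 11, 11],
   [20, 0, 20, 20, 9, 9, 20, 20, 11, 11, 11, 11],
   [20, 20, 0, 20, 20, 20, 9, 9, 11, 11, 11, 11],
   [9, 20, 20, 0, 11, 20, 20, 20, 11, 11, 11, 11],
   [20, 9, 20, 11, 0, 11, 20, 11, 9, 11, 9, 11],
   [20, 9, 20, 20, 11, 0, 11, 20, 11, 9, 11, 9],
   [20, 20, 9, 20, 20, 11, 0, 11, 11, 9, 11, 9],
   [20, 20, 9, 20, 11, 20, 11, 0, 9, 11, 9, 11],
   [11, 11, 11, 11, 9, 11, 11, 9, 0, 9, 9, 9],
   [11, 11, 11, 11, 11, 9, 9, 11, 9, 0, 9, 9],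
   [11, 11, 11, 11, 9, 11, 11, 9, 9, 9, 0, 9],
   [11, 11, 11, 11, 11, 9, 9, 11, 9, 9, 9, 0]]

/-- Table of an antisymmetric sign function on pairs of vertices (used only in the proof). -/
def tabL : List (List ℤ) :=
  [[0, 1, 1, 0, -1, -1, -1, -1, -1, -1, 1, 1],
   [-1, 0, 1, 1, 0, 0, -1, -1, -1, -1, 1, 1],
   [-1, -1, 0, 1, 1, 1, 0, 0, -1, -1, 1, 1],
   [0, -1, -1, 0, 1, 1, 1, 1, -1, -1, 1, 1],
   [1, 0, -1, -1, 0, 1, 1, 1, 0, -1, 0, 1],
   [1, 0, -1, -1, -1, 0, 1, 1, 1, 0, -1, 0],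
   [1, 1, 0, -1, -1, -1, 0, 1, 1, 0, -1, 0],
   [1, 1, 0, -1, -1, -1, -1, 0, 0, -1, 0, 1],
   [1, 1, 1, 1, 0, -1, -1, 0, 0, 0, 0, 0],
   [1, 1, 1, 1, 1, 0, 0, 1, 0, 0, 0, 0],
   [-1, -1, -1, -1, 0, 1, 1, 0, 0, 0, 0, 0],
   [-1, -1, -1, -1, -1, 0, 0, -1, 0, 0, 0, 0]]

/-- The prescribed distance between vertices `i` and `k`. -/
def dd (i k : Fin 12) : ℤ := (tabD.getD i.val []).getD k.val 0

/-- The sign attached to the pair of vertices `(i, k)`. -/
def ll (i k : Fin 12) : ℤ := (tabL.getD i.val []).getD k.val 0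

/-- Coordinates of the vertex `i`: the twelve numbers `dd i k` and the twelve numbers
`1` (if `k = i`) or `0` (otherwise). -/
noncomputable def pt (i : Fin 12) : (Fin 12 ⊕ Fin 12) → ℝ :=
  Sum.elim (fun k => ((dd i k : ℤ) : ℝ)) (fun k => if k = i then 1 else 0)

/-- A walk through the twelve vertices along the edges of the graph. -/
def walk (n : ℕ) : Fin 12 := ([9, 8, 0, 1, 2, 3, 10, 11, 10, 3, 4, 5, 6, 7, 0].getD n 0)

/-- The space: the union of the straight segments joining consecutive vertices of the walk,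
in `ℝ ^ 24` with the maximum metric. -/
def space : Set ((Fin 12 ⊕ Fin 12) → ℝ) :=
  ⋃ n : Fin 14, segment ℝ (pt (walk n.val)) (pt (walk (n.val + 1)))

theorem chain_preconnected {E : Type*} [AddCommGroup E] [Module ℝ E] [TopologicalSpace E]
    [ContinuousAdd E] [ContinuousSMul ℝ E] (f : ℕ → E) (N : ℕ) :
    IsPreconnected (⋃ n : Fin (N + 1), segment ℝ (f n.val) (f (n.val + 1))) := by
  induction N with
  | zero =>
    have h : (⋃ n : Fin (0 + 1), segment ℝ (f n.val) (f (n.val + 1)))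
        = segment ℝ (f 0) (f 1) := by
      ext x
      simp
    rw [h]
    exact (convex_segment _ _).isPreconnected
  | succ N ih =>
    have h : (⋃ n : Fin (N + 1 + 1), segment ℝ (f n.val) (f (n.val + 1)))
        = (⋃ n : Fin (N + 1), segment ℝ (f n.val) (f (n.val + 1))) ∪
          segment ℝ (f (N + 1)) (f (N + 1 + 1)) := by
      ext x
      simp only [Set.mem_iUnion, Set.mem_union]
      constructor
      · rintro ⟨n, hn⟩
        by_cases hN : n.val = N + 1
        · right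
          rw [hN] at hn
          exact hn
        · left
          exact ⟨⟨n.val, by omega⟩, hn⟩
      · rintro (⟨n, hn⟩ | hx)
        · exact ⟨⟨n.val, by omega⟩, hn⟩
        · exact ⟨⟨N + 1, by omega⟩, hx⟩
    rw [h]
    refine IsPreconnected.union (f (N + 1)) ?_ ?_ ih (convex_segment _ _).isPreconnected
    · exact Set.mem_iUnion.2 ⟨⟨N, by omega⟩, right_mem_segment ℝ _ _⟩
    · exact left_mem_segment ℝ _ _

theorem isCompact_segment' {E : Type*} [AddCommGroup E] [Module ℝ E] [TopologicalSpace E]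
    [IsTopologicalAddGroup E] [ContinuousSMul ℝ E] (x y : E) : IsCompact (segment ℝ x y) := by
  rw [segment_eq_image_lineMap]
  exact isCompact_Icc.image (AffineMap.lineMap_continuous)

theorem isCompact_space : IsCompact space := by
  unfold space
  exact isCompact_iUnion fun n => isCompact_segment' _ _

theorem isPreconnected_space : IsPreconnected space :=
  chain_preconnected (fun n => pt (walk n)) 13

/-- The bilinear antisymmetric function extending `ll`. -/
noncomputable def g (p q : (Fin 12 ⊕ Fin 12) → ℝ) : ℝ :=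
  ∑ k : Fin 12, ∑ l : Fin 12, (((ll k l : ℤ) : ℝ) * p (Sum.inr k)) * q (Sum.inr l)

theorem g_left (a b : ℝ) (p p' q : (Fin 12 ⊕ Fin 12) → ℝ) :
    g (a • p + b • p') q = a * g p q + b * g p' q := by
  unfold g
  simp only [Pi.add_apply, Pi.smul_apply, smul_eq_mul, Finset.mul_sum, ← Finset.sum_add_distrib]
  refine Finset.sum_congr rfl fun k _ => Finset.sum_congr rfl fun l _ => ?_
  ring

theorem g_right (a b : ℝ) (p q q' : (Fin 12 ⊕ Fin 12) → ℝ) :
    g p (a • q + b • q') = a * g p q + b * g p q' := by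
  unfold g
  simp only [Pi.add_apply, Pi.smul_apply, smul_eq_mul, Finset.mul_sum, ← Finset.sum_add_distrib]
  refine Finset.sum_congr rfl fun k _ => Finset.sum_congr rfl fun l _ => ?_
  ring

theorem g_pt (i k : Fin 12) : g (pt i) (pt k) = ((ll i k : ℤ) : ℝ) := by
  unfold g pt
  simp

theorem continuous_g : Continuous fun z : ((Fin 12 ⊕ Fin 12) → ℝ) × ((Fin 12 ⊕ Fin 12) → ℝ) =>
    g z.1 z.2 := by
  unfold g
  refine continuous_finsetSum _ fun k _ => continuous_finsetSum _ fun l _ => ?_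
  exact (continuous_const.mul ((continuous_apply _).comp continuous_fst)).mul
    ((continuous_apply _).comp continuous_snd)

/-- The sign pattern allowed at the four corners of a product of two edges. -/
def okSquare (l00 l01 l10 l11 : ℤ) : Prop :=
  (0 ≤ l00 ∧ 0 ≤ l01 ∧ 0 ≤ l10 ∧ 0 ≤ l11) ∨
  (l00 ≤ 0 ∧ l01 ≤ 0 ∧ l10 ≤ 0 ∧ l11 ≤ 0) ∨
  (l01 = 0 ∧ l10 = 0 ∧ l00 = -l11 ∧ l11 ≠ 0) ∨
  (l00 = 0 ∧ l11 = 0 ∧ l01 = -l10 ∧ l10 ≠ 0)

instance (l00 l01 l10 l11 : ℤ) : Decidable (okSquare l00 l01 l10 l11) := by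
  unfold okSquare; infer_instance

theorem square_pos (a b c d x00 x01 x10 x11 : ℝ) (l00 l01 l10 l11 : ℤ) (ha : 0 ≤ a)
    (hb : 0 ≤ b) (hc : 0 ≤ c) (hd : 0 ≤ d) (hab : a + b = 1) (hcd : c + d = 1)
    (h00 : l00 = 0 → |x00| ≤ 9) (h01 : l01 = 0 → |x01| ≤ 9)
    (h10 : l10 = 0 → |x10| ≤ 9) (h11 : l11 = 0 → |x11| ≤ 9)
    (k00 : 0 ≤ l00) (k01 : 0 ≤ l01) (k10 : 0 ≤ l10) (k11 : 0 ≤ l11)
    (hg : a * c * l00 + a * d * l01 + b * c * l10 + b * d * l11 = 0) :
    |a * c * x00 + a * d * x01 + b * c * x10 + b * d * x11| ≤ 9 := by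
  have key : ∀ (s x : ℝ) (l : ℤ), 0 ≤ s → 0 ≤ l → s * l = 0 → (l = 0 → |x| ≤ 9) →
      |s * x| ≤ 9 * s := by
    intro s x l hs hl h0 hx
    rcases mul_eq_zero.1 h0 with h | h
    · rw [h]; simp
    · have hl0 : l = 0 := by exact_mod_cast h
      rw [abs_mul, abs_of_nonneg hs, mul_comm]
      exact mul_le_mul_of_nonneg_right (hx hl0) hs
  have r00 : (0 : ℝ) ≤ l00 := by exact_mod_cast k00
  have r01 : (0 : ℝ) ≤ l01 := by exact_mod_cast k01
  have r10 : (0 : ℝ) ≤ l10 := by exact_mod_cast k10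
  have r11 : (0 : ℝ) ≤ l11 := by exact_mod_cast k11
  have s00 := mul_nonneg (mul_nonneg ha hc) r00
  have s01 := mul_nonneg (mul_nonneg ha hd) r01
  have s10 := mul_nonneg (mul_nonneg hb hc) r10
  have s11 := mul_nonneg (mul_nonneg hb hd) r11
  have e00 := key (a * c) x00 l00 (mul_nonneg ha hc) k00 (by linarith) h00
  have e01 := key (a * d) x01 l01 (mul_nonneg ha hd) k01 (by linarith) h01
  have e10 := key (b * c) x10 l10 (mul_nonneg hb hc) k10 (by linarith) h10
  have e11 := key (b * d) x11 l11 (mul_nonneg hb hd) k11 (by linarith) h11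
  have hsum : a * c + a * d + b * c + b * d = 1 := by
    have : a * c + a * d + b * c + b * d = (a + b) * (c + d) := by ring
    rw [this, hab, hcd, one_mul]
  rw [abs_le] at *
  constructor <;> linarith [e00.1, e00.2, e01.1, e01.2, e10.1, e10.2, e11.1, e11.2]

theorem square (a b c d x00 x01 x10 x11 : ℝ) (l00 l01 l10 l11 : ℤ) (ha : 0 ≤ a)
    (hb : 0 ≤ b) (hc : 0 ≤ c) (hd : 0 ≤ d) (hab : a + b = 1) (hcd : c + d = 1)
    (hx : x00 + x11 = x01 + x10)
    (h00 : l00 = 0 → |x00| ≤ 9) (h01 : l01 = 0 → |x01| ≤ 9)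
    (h10 : l10 = 0 → |x10| ≤ 9) (h11 : l11 = 0 → |x11| ≤ 9)
    (hok : okSquare l00 l01 l10 l11)
    (hg : a * c * l00 + a * d * l01 + b * c * l10 + b * d * l11 = 0) :
    |a * c * x00 + a * d * x01 + b * c * x10 + b * d * x11| ≤ 9 := by
  have conv : ∀ (s t x y : ℝ), 0 ≤ s → 0 ≤ t → s + t = 1 → |x| ≤ 9 → |y| ≤ 9 →
      |s * x + t * y| ≤ 9 := by
    intro s t x y hs ht hst hx hy
    rw [abs_le] at *
    have h1 := mul_le_mul_of_nonneg_left hx.1 hs
    have h2 := mul_le_mul_of_nonneg_left hx.2 hs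
    have h3 := mul_le_mul_of_nonneg_left hy.1 ht
    have h4 := mul_le_mul_of_nonneg_left hy.2 ht
    constructor <;> nlinarith
  rcases hok with ⟨k00, k01, k10, k11⟩ | ⟨k00, k01, k10, k11⟩ | ⟨k01, k10, k, k11⟩ |
    ⟨k00, k11, k, k10⟩
  · exact square_pos a b c d x00 x01 x10 x11 l00 l01 l10 l11 ha hb hc hd hab hcd h00 h01 h10 h11
      k00 k01 k10 k11 hg
  · refine square_pos a b c d x00 x01 x10 x11 (-l00) (-l01) (-l10) (-l11) ha hb hc hd hab hcd
      (fun h => h00 (by omega)) (fun h => h01 (by omega)) (fun h => h10 (by omega))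
      (fun h => h11 (by omega)) (by omega) (by omega) (by omega) (by omega) ?_
    push_cast
    linarith
  · rw [k01, k10, k] at hg
    push_cast at hg
    have h1 : (l11 : ℝ) ≠ 0 := by exact_mod_cast k11
    have h2 : (b * d - a * c) * (l11 : ℝ) = 0 := by linarith
    have h3 : b * d - a * c = 0 := (mul_eq_zero.1 h2).resolve_right h1
    have hb' : b = 1 - a := by linarith
    have hc' : c = 1 - d := by linarith
    have had : d = a := by rw [hb', hc'] at h3; linarith
    have hbc : c = b := by linarith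
    have : a * c * x00 + a * d * x01 + b * c * x10 + b * d * x11 = a * x01 + b * x10 := by
      rw [had, hbc]
      have hx' : x00 = x01 + x10 - x11 := by linarith
      rw [hx']
      have : a * b * (x01 + x10 - x11) + a * a * x01 + b * b * x10 + b * a * x11 =
        (a + b) * (a * x01 + b * x10) := by ring
      rw [this, hab, one_mul]
    rw [this]
    exact conv a b x01 x10 ha hb hab (h01 k01) (h10 k10)
  · rw [k00, k11, k] at hg
    push_cast at hg
    have h1 : (l10 : ℝ) ≠ 0 := by exact_mod_cast k10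
    have h2 : (b * c - a * d) * (l10 : ℝ) = 0 := by linarith
    have h3 : b * c - a * d = 0 := (mul_eq_zero.1 h2).resolve_right h1
    have hb' : b = 1 - a := by linarith
    have hd' : d = 1 - c := by linarith
    have hac : c = a := by rw [hb', hd'] at h3; linarith
    have hbd : d = b := by linarith
    have : a * c * x00 + a * d * x01 + b * c * x10 + b * d * x11 = a * x00 + b * x11 := by
      rw [hac, hbd]
      have hx' : x01 = x00 + x11 - x10 := by linarith
      rw [hx']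
      have : a * a * x00 + a * b * (x00 + x11 - x10) + b * a * x10 + b * b * x11 =
        (a + b) * (a * x00 + b * x11) := by ring
      rw [this, hab, one_mul]
    rw [this]
    exact conv a b x00 x11 ha hb hab (h00 k00) (h11 k11)

theorem ll_zero : ∀ i k m : Fin 12, ll i k = 0 → |dd i m - dd k m| ≤ 9 := by
  decide +kernel

theorem edges_ok : ∀ n m : Fin 14, okSquare (ll (walk n.val) (walk m.val))
    (ll (walk n.val) (walk (m.val + 1))) (ll (walk (n.val + 1)) (walk m.val))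
    (ll (walk (n.val + 1)) (walk (m.val + 1))) := by
  decide +kernel

theorem pt_inl (i m : Fin 12) : pt i (Sum.inl m) = ((dd i m : ℤ) : ℝ) := rfl

theorem pt_inr (i m : Fin 12) : pt i (Sum.inr m) = if m = i then 1 else 0 := rfl

theorem dist_le_nine {p q : (Fin 12 ⊕ Fin 12) → ℝ} (hp : p ∈ space) (hq : q ∈ space)
    (h : g p q = 0) : dist p q ≤ 9 := by
  obtain ⟨n, a, b, ha, hb, hab, rfl⟩ := Set.mem_iUnion.1 hp
  obtain ⟨m, c, d, hc, hd, hcd, rfl⟩ := Set.mem_iUnion.1 hq
  rw [dist_pi_le_iff (by norm_num)]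
  have hz : ∀ i k s : Fin 12, ll i k = 0 →
      |((dd i s : ℤ) : ℝ) - ((dd k s : ℤ) : ℝ)| ≤ 9 := by
    intro i k s h
    have := ll_zero i k s h
    exact_mod_cast this
  rintro (s | s)
  · rw [Real.dist_eq]
    simp only [Pi.add_apply, Pi.smul_apply, smul_eq_mul, pt_inl]
    rw [g_left, g_right, g_right, g_pt, g_pt, g_pt, g_pt] at h
    have := square a b c d _ _ _ _ _ _ _ _ ha hb hc hd hab hcd (by ring)
      (hz (walk n.val) (walk m.val) s) (hz (walk n.val) (walk (m.val + 1)) s)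
      (hz (walk (n.val + 1)) (walk m.val) s) (hz (walk (n.val + 1)) (walk (m.val + 1)) s)
      (edges_ok n m) (by linarith)
    convert this using 2
    generalize ((dd (walk n.val) s : ℤ) : ℝ) = x1
    generalize ((dd (walk (n.val + 1)) s : ℤ) : ℝ) = x2
    generalize ((dd (walk m.val) s : ℤ) : ℝ) = y1
    generalize ((dd (walk (m.val + 1)) s : ℤ) : ℝ) = y2
    have hb' : b = 1 - a := by linarith
    have hd' : d = 1 - c := by linarith
    rw [hb', hd']
    ring
  · rw [Real.dist_eq]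
    simp only [Pi.add_apply, Pi.smul_apply, smul_eq_mul, pt_inr]
    rw [abs_le]
    constructor <;> split_ifs <;> linarith

theorem walk_signs : ∀ n : Fin 14, (0 ≤ ll 9 (walk n.val) ∧ 0 ≤ ll 9 (walk (n.val + 1)) ∧
    ll 11 (walk n.val) ≤ 0 ∧ ll 11 (walk (n.val + 1)) ≤ 0) ∧
    (ll (walk n.val) 9 ≤ 0 ∧ ll (walk (n.val + 1)) 9 ≤ 0 ∧
    0 ≤ ll (walk n.val) 11 ∧ 0 ≤ ll (walk (n.val + 1)) 11) := by
  decide +kernel

theorem g_nine {q : (Fin 12 ⊕ Fin 12) → ℝ} (hq : q ∈ space) :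
    0 ≤ g (pt 9) q ∧ g (pt 11) q ≤ 0 ∧ g q (pt 9) ≤ 0 ∧ 0 ≤ g q (pt 11) := by
  obtain ⟨m, c, d, hc, hd, hcd, rfl⟩ := Set.mem_iUnion.1 hq
  obtain ⟨⟨h1, h2, h3, h4⟩, h5, h6, h7, h8⟩ := walk_signs m
  rw [g_left, g_left, g_right, g_right, g_pt, g_pt, g_pt, g_pt, g_pt, g_pt, g_pt, g_pt]
  have h1' : (0 : ℝ) ≤ (ll 9 (walk m.val) : ℤ) := by exact_mod_cast h1
  have h2' : (0 : ℝ) ≤ (ll 9 (walk (m.val + 1)) : ℤ) := by exact_mod_cast h2
  have h3' : ((ll 11 (walk m.val) : ℤ) : ℝ) ≤ 0 := by exact_mod_cast h3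
  have h4' : ((ll 11 (walk (m.val + 1)) : ℤ) : ℝ) ≤ 0 := by exact_mod_cast h4
  have h5' : ((ll (walk m.val) 9 : ℤ) : ℝ) ≤ 0 := by exact_mod_cast h5
  have h6' : ((ll (walk (m.val + 1)) 9 : ℤ) : ℝ) ≤ 0 := by exact_mod_cast h6
  have h7' : (0 : ℝ) ≤ (ll (walk m.val) 11 : ℤ) := by exact_mod_cast h7
  have h8' : (0 : ℝ) ≤ (ll (walk (m.val + 1)) 11 : ℤ) := by exact_mod_cast h8
  refine ⟨?_, ?_, ?_, ?_⟩
  · exact add_nonneg (mul_nonneg hc h1') (mul_nonneg hd h2')
  · have := mul_nonneg hc (neg_nonneg.2 h3')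
    have := mul_nonneg hd (neg_nonneg.2 h4')
    linarith
  · have := mul_nonneg hc (neg_nonneg.2 h5')
    have := mul_nonneg hd (neg_nonneg.2 h6')
    linarith
  · exact add_nonneg (mul_nonneg hc h7') (mul_nonneg hd h8')

theorem pt_nine_mem : pt 9 ∈ space :=
  Set.mem_iUnion.2 ⟨0, left_mem_segment ℝ _ _⟩

theorem pt_eleven_mem : pt 11 ∈ space :=
  Set.mem_iUnion.2 ⟨7, left_mem_segment ℝ _ _⟩

/-- Every connected subset of `space × space` one of whose projections is all of `space`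
contains a pair of points at distance at most `9`. -/
theorem exists_close {C : Set (space × space)} (hC : IsConnected C)
    (h : Prod.fst '' C = Set.univ ∨ Prod.snd '' C = Set.univ) :
    ∃ p ∈ C, dist p.1 p.2 ≤ 9 := by
  have hg : Continuous fun z : space × space => g z.1.1 z.2.1 :=
    continuous_g.comp (Continuous.prodMap continuous_subtype_val continuous_subtype_val)
  have key : ∃ z ∈ C, ∃ w ∈ C, g z.1.1 z.2.1 ≤ 0 ∧ 0 ≤ g w.1.1 w.2.1 := by
    rcases h with h | h
    · have h1 : (⟨pt 11, pt_eleven_mem⟩ : space) ∈ Prod.fst '' C := by rw [h]; trivial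
      have h2 : (⟨pt 9, pt_nine_mem⟩ : space) ∈ Prod.fst '' C := by rw [h]; trivial
      obtain ⟨z, hz, hz1⟩ := h1
      obtain ⟨w, hw, hw1⟩ := h2
      refine ⟨z, hz, w, hw, ?_, ?_⟩
      · rw [hz1]; exact (g_nine z.2.2).2.1
      · rw [hw1]; exact (g_nine w.2.2).1
    · have h1 : (⟨pt 9, pt_nine_mem⟩ : space) ∈ Prod.snd '' C := by rw [h]; trivial
      have h2 : (⟨pt 11, pt_eleven_mem⟩ : space) ∈ Prod.snd '' C := by rw [h]; trivial
      obtain ⟨z, hz, hz1⟩ := h1
      obtain ⟨w, hw, hw1⟩ := h2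
      refine ⟨z, hz, w, hw, ?_, ?_⟩
      · rw [hz1]; exact (g_nine z.1.2).2.2.1
      · rw [hw1]; exact (g_nine w.1.2).2.2.2
  obtain ⟨z, hz, w, hw, h1, h2⟩ := key
  obtain ⟨p, hp, hp0⟩ := hC.isPreconnected.intermediate_value hz hw hg.continuousOn
    (⟨h1, h2⟩ : (0 : ℝ) ∈ Set.Icc _ _)
  refine ⟨p, hp, ?_⟩
  rw [Subtype.dist_eq]
  exact dist_le_nine p.1.2 p.2.2 hp0

/-- First coordinates of the vertices of the closed walk of far apart pairs. -/
def wa (n : ℕ) : Fin 12 :=
  ([4, 3, 3, 3, 3, 2, 2, 2, 1, 1, 0, 0, 7, 7, 6, 6, 6, 5, 4, 5, 5].getD n 0)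

/-- Second coordinates of the vertices of the closed walk of far apart pairs. -/
def wb (n : ℕ) : Fin 12 :=
  ([6, 6, 7, 6, 5, 5, 4, 3, 3, 2, 2, 1, 1, 0, 0, 1, 0, 0, 0, 0, 7].getD n 0)

/-- The set of far apart pairs, a union of twenty segments. -/
noncomputable def zset : Set (((Fin 12 ⊕ Fin 12) → ℝ) × ((Fin 12 ⊕ Fin 12) → ℝ)) :=
  ⋃ n : Fin (19 + 1), segment ℝ (pt (wa n.val), pt (wb n.val))
    (pt (wa (n.val + 1)), pt (wb (n.val + 1)))

theorem zset_preconnected : IsPreconnected zset :=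
  chain_preconnected (fun n => (pt (wa n), pt (wb n))) 19

theorem fst_segment (x y : ((Fin 12 ⊕ Fin 12) → ℝ) × ((Fin 12 ⊕ Fin 12) → ℝ)) :
    Prod.fst '' segment ℝ x y = segment ℝ x.1 y.1 := by
  have h := image_segment ℝ (LinearMap.fst ℝ ((Fin 12 ⊕ Fin 12) → ℝ)
    ((Fin 12 ⊕ Fin 12) → ℝ)).toAffineMap x y
  exact h

theorem snd_segment (x y : ((Fin 12 ⊕ Fin 12) → ℝ) × ((Fin 12 ⊕ Fin 12) → ℝ)) :
    Prod.snd '' segment ℝ x y = segment ℝ x.2 y.2 := by
  have h := image_segment ℝ (LinearMap.snd ℝ ((Fin 12 ⊕ Fin 12) → ℝ)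
    ((Fin 12 ⊕ Fin 12) → ℝ)).toAffineMap x y
  exact h

theorem fst_zset : Prod.fst '' zset =
    ⋃ n : Fin (19 + 1), segment ℝ (pt (wa n.val)) (pt (wa (n.val + 1))) := by
  unfold zset
  rw [Set.image_iUnion]
  simp only [fst_segment]

theorem snd_zset : Prod.snd '' zset =
    ⋃ n : Fin (19 + 1), segment ℝ (pt (wb n.val)) (pt (wb (n.val + 1))) := by
  unfold zset
  rw [Set.image_iUnion]
  simp only [snd_segment]

/-- Two sequences of vertices such that every segment of the first one is a segment (or an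
endpoint) of the second one. -/
theorem iUnion_subset_of (f h : ℕ → Fin 12) (N M : ℕ)
    (hyp : ∀ n : Fin N, ∃ m : Fin M,
      (f n.val = h m.val ∧ f (n.val + 1) = h (m.val + 1)) ∨
      (f n.val = h (m.val + 1) ∧ f (n.val + 1) = h m.val) ∨
      (f n.val = h m.val ∧ f (n.val + 1) = h m.val)) :
    (⋃ n : Fin N, segment ℝ (pt (f n.val)) (pt (f (n.val + 1)))) ⊆
      ⋃ m : Fin M, segment ℝ (pt (h m.val)) (pt (h (m.val + 1))) := by
  refine Set.iUnion_subset fun n => ?_
  obtain ⟨m, hm⟩ := hyp n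
  refine Set.Subset.trans ?_ (Set.subset_iUnion _ m)
  rcases hm with ⟨h1, h2⟩ | ⟨h1, h2⟩ | ⟨h1, h2⟩
  · rw [h1, h2]
  · rw [h1, h2, segment_symm]
  · rw [h1, h2, segment_same]
    exact Set.singleton_subset_iff.2 (left_mem_segment ℝ _ _)

theorem fst_eq_snd : Prod.fst '' zset = Prod.snd '' zset := by
  rw [fst_zset, snd_zset]
  refine Set.Subset.antisymm ?_ ?_
  · exact iUnion_subset_of wa wb (19 + 1) (19 + 1) (by decide +kernel)
  · exact iUnion_subset_of wb wa (19 + 1) (19 + 1) (by decide +kernel)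

theorem fst_subset : Prod.fst '' zset ⊆ space := by
  rw [fst_zset]
  exact iUnion_subset_of wa walk (19 + 1) 14 (by decide +kernel)

theorem far_check : ∀ n : Fin (19 + 1), ∃ s : Fin 12,
    (dd (wa n.val) s - dd (wb n.val) s = 20 ∧
      dd (wa (n.val + 1)) s - dd (wb (n.val + 1)) s = 20) ∨
    (dd (wa n.val) s - dd (wb n.val) s = -20 ∧
      dd (wa (n.val + 1)) s - dd (wb (n.val + 1)) s = -20) := by
  decide +kernel

theorem zset_far {z : ((Fin 12 ⊕ Fin 12) → ℝ) × ((Fin 12 ⊕ Fin 12) → ℝ)} (hz : z ∈ zset) :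
    20 ≤ dist z.1 z.2 := by
  obtain ⟨n, a, b, ha, hb, hab, rfl⟩ := Set.mem_iUnion.1 hz
  obtain ⟨s, hs⟩ := far_check n
  refine le_trans ?_ (dist_le_pi_dist _ _ (Sum.inl s))
  rw [Real.dist_eq]
  simp only [Prod.smul_mk, Prod.mk_add_mk, Pi.add_apply, Pi.smul_apply, smul_eq_mul, pt_inl]
  generalize hx1 : dd (wa n.val) s = x1 at hs
  generalize hx2 : dd (wa (n.val + 1)) s = x2 at hs
  generalize hy1 : dd (wb n.val) s = y1 at hs
  generalize hy2 : dd (wb (n.val + 1)) s = y2 at hs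
  have e : a * (x1 : ℝ) + b * (x2 : ℝ) - (a * (y1 : ℝ) + b * (y2 : ℝ)) =
      a * ((x1 - y1 : ℤ) : ℝ) + b * ((x2 - y2 : ℤ) : ℝ) := by
    push_cast
    ring
  rw [e]
  rcases hs with ⟨h1, h2⟩ | ⟨h1, h2⟩
  · rw [h1, h2, ← add_mul, hab]
    norm_num
  · rw [h1, h2, ← add_mul, hab]
    norm_num

/-- The space of pairs, as a subset of `space × space`. -/
def zsub : Set (space × space) := Prod.map Subtype.val Subtype.val ⁻¹' zset

theorem image_zsub : Prod.map Subtype.val Subtype.val '' zsub = zset := by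
  unfold zsub
  rw [Set.image_preimage_eq_inter_range, Set.inter_eq_left]
  intro z hz
  have h1 : z.1 ∈ space := fst_subset ⟨z, hz, rfl⟩
  have h2 : z.2 ∈ space := by
    apply fst_subset
    rw [fst_eq_snd]
    exact ⟨z, hz, rfl⟩
  exact ⟨(⟨z.1, h1⟩, ⟨z.2, h2⟩), rfl⟩

theorem zsub_connected : IsConnected zsub := by
  have hne : zset.Nonempty :=
    ⟨(pt (wa 0), pt (wb 0)), Set.mem_iUnion.2 ⟨0, left_mem_segment ℝ _ _⟩⟩
  refine ⟨?_, ?_⟩
  · rw [← image_zsub] at hne
    exact hne.of_image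
  · have hind : Topology.IsInducing (Prod.map (Subtype.val : space → _)
        (Subtype.val : space → _)) :=
      Topology.IsInducing.subtypeVal.prodMap Topology.IsInducing.subtypeVal
    rw [← hind.isPreconnected_image, image_zsub]
    exact zset_preconnected

theorem zsub_far {p : space × space} (hp : p ∈ zsub) : 20 ≤ dist p.1 p.2 :=
  zset_far hp

theorem fst_zsub_eq : Prod.fst '' zsub = Prod.snd '' zsub := by
  have h1 : Subtype.val '' (Prod.fst '' zsub) = Prod.fst '' zset := by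
    rw [← image_zsub, Set.image_image, Set.image_image]
    rfl
  have h2 : Subtype.val '' (Prod.snd '' zsub) = Prod.snd '' zset := by
    rw [← image_zsub, Set.image_image, Set.image_image]
    rfl
  rw [← fst_eq_snd, ← h1] at h2
  exact (Set.image_injective.2 Subtype.val_injective h2).symm

instance : CompactSpace space := isCompact_iff_compactSpace.1 isCompact_space

instance : ConnectedSpace space :=
  isConnected_iff_connectedSpace.1 ⟨⟨_, pt_nine_mem⟩, isPreconnected_space⟩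

theorem le_semispan : (20 : ENNReal) ≤ semispan space := by
  unfold semispan
  refine le_iSup_of_le zsub (le_iSup_of_le zsub_connected
    (le_iSup_of_le (Or.inl fst_zsub_eq.subset) ?_))
  refine le_iInf₂ fun p hp => ?_
  rw [edist_dist]
  have h := ENNReal.ofReal_le_ofReal (zsub_far hp)
  refine le_trans (le_of_eq ?_) h
  norm_num

theorem surjectiveSemispan_le : surjectiveSemispan space ≤ 9 := by
  unfold surjectiveSemispan
  refine iSup_le fun C => iSup_le fun hC => iSup_le fun h => ?_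
  obtain ⟨p, hp, hd⟩ := exists_close hC h
  refine le_trans (iInf₂_le p hp) ?_
  rw [edist_dist]
  refine le_trans (ENNReal.ofReal_le_ofReal hd) (le_of_eq ?_)
  norm_num

/-- There is a compact connected metric space (namely `space`, the union of fourteen straight
segments in `ℝ ^ 24` with the maximum metric) whose semi-span is greater than twice its
surjective semi-span. -/
theorem result : ∃ (X : Type) (_ : MetricSpace X), CompactSpace X ∧ ConnectedSpace X ∧
    2 * surjectiveSemispan X < semispan X := by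
  refine ⟨space, inferInstance, inferInstance, inferInstance, ?_⟩
  have h1 := surjectiveSemispan_le
  have h2 := le_semispan
  calc 2 * surjectiveSemispan space ≤ 2 * 9 := by gcongr
    _ < 20 := by norm_num
    _ ≤ semispan space := h2

end Pool.Agent.Results.MP_2a9133_gt.Compact
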